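import Pool.Agent.Lib.H70N.N
import Pool.Agent.Lib.H70L.Def

/-!
# H33LH, file Hyp: the complex of the sets which lie in a disconnected set, for a union of cliques

Form L (helper70), chunk C, second copy: `H70N.ack_N` with the cost `∑ (2 |X| - 3)` of a family of cliques in place of
the number of edges.
-/

set_option autoImplicit false
set_option linter.unusedSectionVars false

namespace H33LH

open Finset H98P H98Z H98M H63F H30F H30D H70H H70N H70L

variable {V : Type*} [Fintype V] [DecidableEq V]

/-- The cost of a clique with `a` vertices in `X` and `b` in `Y`. -/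
def cN (a b : ℕ) : ℕ := if a = 0 then 0 else if b = 0 then 2 * a - 3 else 2 * a + b - 2

/-- The cost of the clique `A` in the claim on `R(X, Y, Z)`. -/
def cR (X Y Z A : Finset V) : ℕ :=
  if (A ∩ Z).Nonempty then (A ∩ X).card - 1 else cN (A ∩ X).card (A ∩ Y).card

/-- The sum of the costs. -/
def mS (F : Finset (Finset V)) (X Y Z : Finset V) : ℕ := ∑ A ∈ F, cR X Y Z A

theorem mem_HG {F : Finset (Finset V)} {x y : V} :
    s(x, y) ∈ HG F ↔ x ≠ y ∧ ∃ A ∈ F, x ∈ A ∧ y ∈ A := by
  unfold HG LW
  simp only [mem_filter, mk_mem_sym2_iff, mem_univ, and_self, true_and, Sym2.mk_isDiag_iff, ne_eq]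

theorem inter_erase_card {X A : Finset V} {x : V} (hx : x ∈ X) (hA : x ∈ A) :
    (A ∩ X.erase x).card + 1 = (A ∩ X).card := by
  rw [inter_erase, card_erase_add_one (mem_inter.2 ⟨hA, hx⟩)]

theorem inter_erase_not {X A : Finset V} {x : V} (hA : x ∉ A) : A ∩ X.erase x = A ∩ X := by
  rw [inter_erase, erase_eq_of_notMem fun h => hA (mem_inter.1 h).1]

theorem cN_mono {a b c : ℕ} (h : c ≤ b) : cN a c ≤ cN a b := by
  unfold cN
  split_ifs <;> omega

theorem cR_erase (X Y Z A : Finset V) {x : V} (hx : x ∈ X) : cR (X.erase x) Y Z A ≤ cR X Y Z A := by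
  by_cases hA : x ∈ A
  · have h := inter_erase_card hx hA
    unfold cR cN
    split_ifs <;> omega
  · unfold cR
    rw [inter_erase_not hA]

theorem del_R {F : Finset (Finset V)} {X Y Z : Finset V} {x : V} (hx : x ∈ X)
    (hYZ : Disjoint Y Z) (hyz : ∀ y ∈ Y, ∀ z ∈ Z, s(z, y) ∉ HG F)
    (h : nb (HG F) x (X.erase x) + nb (HG F) x Y ≠ 0) :
    mS F (X.erase x) Y Z + 1 ≤ mS F X Y Z := by
  have hv : ∃ v A, A ∈ F ∧ x ∈ A ∧ v ∈ A ∧ (v ∈ X.erase x ∨ v ∈ Y) := by
    by_cases h1 : nb (HG F) x (X.erase x) = 0
    · have h2 : 0 < nb (HG F) x Y := by omega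
      obtain ⟨v, hv⟩ := card_pos.1 h2
      rw [mem_filter, mem_HG] at hv
      obtain ⟨h3, -, A, h4, h5, h6⟩ := hv
      exact ⟨v, A, h4, h5, h6, Or.inr h3⟩
    · obtain ⟨v, hv⟩ := card_pos.1 (Nat.pos_of_ne_zero h1)
      rw [mem_filter, mem_HG] at hv
      obtain ⟨h3, -, A, h4, h5, h6⟩ := hv
      exact ⟨v, A, h4, h5, h6, Or.inl h3⟩
  obtain ⟨v, A, hA, hxA, hvA, hv⟩ := hv
  unfold mS
  refine Nat.succ_le_of_lt (sum_lt_sum (fun B _ => cR_erase X Y Z B hx) ⟨A, hA, ?_⟩)
  have h1 := inter_erase_card hx hxA
  rcases hv with hv | hv
  · have h2 : 1 ≤ (A ∩ X.erase x).card := card_pos.2 ⟨v, mem_inter.2 ⟨hvA, hv⟩⟩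
    unfold cR cN
    split_ifs <;> omega
  · have h2 : 1 ≤ (A ∩ Y).card := card_pos.2 ⟨v, mem_inter.2 ⟨hvA, hv⟩⟩
    have h3 : ¬ (A ∩ Z).Nonempty := by
      rintro ⟨z, hz⟩
      rw [mem_inter] at hz
      exact hyz v hv z hz.2 (mem_HG.2 ⟨fun h4 => disjoint_left.1 hYZ hv (h4 ▸ hz.2),
        A, hA, hz.1, hvA⟩)
    unfold cR cN
    rw [if_neg h3, if_neg h3]
    split_ifs <;> omega

theorem link_R {F : Finset (Finset V)} {X Y Z T : Finset V} {x : V} (hx : x ∈ X)
    (hXZ : Disjoint X Z) (hYZ : Disjoint Y Z) (hyz : ∀ y ∈ Y, ∀ z ∈ Z, s(z, y) ∉ HG F)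
    (hT : T = Y.filter fun a => s(x, a) ∈ HG F) :
    mS F (X.erase x) (Y \ T) (insert x Z) + (sZ (HG F) (X.erase x) (insert x Z)).card + T.card ≤
      mS F X Y Z + (sZ (HG F) (X.erase x) Z).card := by
  classical
  have hp : ∀ A ∈ F, cR (X.erase x) (Y \ T) (insert x Z) A +
      (if x ∈ A ∧ ¬ (A ∩ Z).Nonempty then (A ∩ X.erase x).card + (A ∩ Y).card else 0) ≤
      cR X Y Z A := by
    intro A _
    by_cases hA : x ∈ A
    · have h1 := inter_erase_card hx hA
      have h2 : (A ∩ insert x Z).Nonempty := ⟨x, mem_inter.2 ⟨hA, mem_insert_self x Z⟩⟩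
      unfold cR
      rw [if_pos h2]
      by_cases h3 : (A ∩ Z).Nonempty
      · rw [if_neg (fun h => h.2 h3), if_pos h3]
        omega
      · rw [if_pos ⟨hA, h3⟩, if_neg h3]
        unfold cN
        split_ifs <;> omega
    · have h2 : A ∩ insert x Z = A ∩ Z := by
        rw [inter_comm, insert_inter_of_notMem hA, inter_comm]
      rw [if_neg fun h => hA h.1, add_zero]
      unfold cR
      rw [h2, inter_erase_not hA]
      split_ifs
      · exact le_rfl
      · exact cN_mono (card_le_card (inter_subset_inter Subset.rfl sdiff_subset))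
  have hs := sum_le_sum hp
  rw [sum_add_distrib, ← sum_filter, sum_add_distrib] at hs
  obtain ⟨FF, hFF⟩ : ∃ FF, FF = F.filter fun A => x ∈ A ∧ ¬ (A ∩ Z).Nonempty := ⟨_, rfl⟩
  rw [← hFF] at hs
  have h1 : (sZ (HG F) (X.erase x) (insert x Z)).card ≤
      (sZ (HG F) (X.erase x) Z).card + ∑ A ∈ FF, (A ∩ X.erase x).card := by
    refine (card_le_card (t := sZ (HG F) (X.erase x) Z ∪ FF.biUnion fun A => A ∩ X.erase x)
      ?_).trans ((card_union_le _ _).trans (Nat.add_le_add_left card_biUnion_le _))
    intro v hv
    rw [sZ, mem_filter] at hv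
    obtain ⟨hvX, z, hz, hzv⟩ := hv
    rw [mem_union]
    rcases mem_insert.1 hz with h2 | h2
    · subst h2
      obtain ⟨h3, A, hA, h4, h5⟩ := mem_HG.1 hzv
      by_cases h6 : (A ∩ Z).Nonempty
      · obtain ⟨w, hw⟩ := h6
        rw [mem_inter] at hw
        exact Or.inl (mem_filter.2 ⟨hvX, w, hw.2, mem_HG.2 ⟨fun h7 =>
          disjoint_left.1 hXZ (mem_of_mem_erase hvX) (h7 ▸ hw.2), A, hA, hw.1, h5⟩⟩)
      · exact Or.inr (mem_biUnion.2 ⟨A, hFF ▸ mem_filter.2 ⟨hA, h4, h6⟩,
          mem_inter.2 ⟨h5, hvX⟩⟩)
    · exact Or.inl (mem_filter.2 ⟨hvX, z, h2, hzv⟩)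
  have h2 : T.card ≤ ∑ A ∈ FF, (A ∩ Y).card := by
    refine (card_le_card (t := FF.biUnion fun A => A ∩ Y) ?_).trans card_biUnion_le
    intro v hv
    rw [hT, mem_filter] at hv
    obtain ⟨h3, A, hA, h4, h5⟩ := mem_HG.1 hv.2
    refine mem_biUnion.2 ⟨A, hFF ▸ mem_filter.2 ⟨hA, h4, ?_⟩, mem_inter.2 ⟨h5, hv.1⟩⟩
    rintro ⟨w, hw⟩
    rw [mem_inter] at hw
    exact hyz v hv.1 w hw.2 (mem_HG.2 ⟨fun h7 => disjoint_left.1 hYZ hv.1 (h7 ▸ hw.2),
      A, hA, hw.1, h5⟩)
  unfold mS
  omega

theorem del_N {F : Finset (Finset V)} {X Y : Finset V} {x y : V} (hx : x ∈ X) (hxY : x ∉ Y)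
    (hy : y ∈ Y) (hxy : s(x, y) ∈ HG F) :
    mS F (X.erase x) (insert x Y) ∅ + 1 ≤ mS F X Y ∅ := by
  obtain ⟨-, A, hA, hxA, hyA⟩ := mem_HG.1 hxy
  have key : ∀ B : Finset V, x ∈ B → (B ∩ insert x Y).card = (B ∩ Y).card + 1 := by
    intro B hB
    rw [inter_comm, insert_inter_of_mem hB, card_insert_of_notMem, inter_comm]
    exact fun h => hxY (mem_inter.1 h).1
  unfold mS
  refine Nat.succ_le_of_lt (sum_lt_sum (fun B _ => ?_) ⟨A, hA, ?_⟩)
  · by_cases hB : x ∈ B
    · have h1 := inter_erase_card hx hB
      have h2 := key B hB
      unfold cR cN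
      simp only [inter_empty, Finset.not_nonempty_empty, if_false]
      split_ifs <;> omega
    · have h2 : B ∩ insert x Y = B ∩ Y := by
        rw [inter_comm, insert_inter_of_notMem hB, inter_comm]
      unfold cR
      rw [inter_erase_not hB, h2]
  · have h1 := inter_erase_card hx hxA
    have h2 := key A hxA
    have h3 : 1 ≤ (A ∩ Y).card := card_pos.2 ⟨y, mem_inter.2 ⟨hyA, hy⟩⟩
    unfold cR cN
    simp only [inter_empty, Finset.not_nonempty_empty, if_false]
    split_ifs <;> omega

theorem mS_univ {F : Finset (Finset V)} (hF : ∀ A ∈ F, 2 ≤ A.card) (x : V) :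
    mS F (univ.erase x) {x} ∅ ≤ cost F := by
  refine sum_le_sum fun A hA => ?_
  have h0 := hF A hA
  by_cases h : x ∈ A
  · have h1 := inter_erase_card (mem_univ x) h
    rw [inter_univ] at h1
    have h2 : (A ∩ {x}).card = 1 := by
      rw [inter_singleton_of_mem h, card_singleton]
    unfold cR cN
    simp only [inter_empty, Finset.not_nonempty_empty, if_false]
    split_ifs <;> omega
  · have h1 : A ∩ univ.erase x = A := by rw [inter_erase_not h, inter_univ]
    have h2 : (A ∩ {x}).card = 0 := by
      rw [inter_singleton_of_notMem h, card_empty]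
    unfold cR cN
    simp only [inter_empty, Finset.not_nonempty_empty, if_false]
    rw [h1, h2]
    split_ifs <;> omega


/-- Claim R: `Z` connected, no edges between `Y` and `Z`. -/
theorem ack_R {F : Finset (Finset V)} (n : ℕ) : ∀ (X Y Z : Finset V) (k : ℕ), X.card ≤ n →
    Disjoint X Y → Disjoint X Z → Disjoint Y Z → Z.Nonempty → ¬ Disc Z (HG F) → Y.Nonempty →
    X.Nonempty → (∀ y ∈ Y, ∀ z ∈ Z, s(z, y) ∉ (HG F)) → k + 2 + (mS F X Y Z + (sZ (HG F) X Z).card) ≤ 2 * X.card + Y.card →
    ACk k (Rx (HG F) (X ∪ Y ∪ Z) X Z) := by
  induction n with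
  | zero =>
    intro X Y Z k hc _ _ _ _ _ _ hX _ _
    exact absurd (card_pos.2 hX) (by omega)
  | succ n ih =>
    intro X Y Z k hc hXY hXZ hYZ hZ hn hY hX hyz hk
    by_cases hx : ∃ x ∈ X, ∃ z ∈ Z, s(z, x) ∈ (HG F)
    · obtain ⟨x, hxX, z, hz, hzx⟩ := hx
      have hxY : x ∉ Y := fun h => disjoint_left.1 hXY hxX h
      have hxZ : x ∉ Z := fun h => disjoint_left.1 hXZ hxX h
      have hxs : x ∈ sZ (HG F) X Z := mem_filter.2 ⟨hxX, z, hz, hzx⟩
      have a2 := sZ_erase hxs
      have a4 : (X.erase x).card + 1 = X.card := card_erase_add_one hxX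
      by_cases h0 : nb (HG F) x (X.erase x) + nb (HG F) x Y = 0
      · refine ack_of_ac k (H63H.ac_cone (a := x) ?_)
        rintro s ⟨h1, W, h2, h3, h4⟩
        obtain ⟨C, D, hD, hCD, hW, hZC, h⟩ := disc_part hZ hn (subset_union_right.trans h2) h4
        have hxD : x ∉ D := fun hd => h z (hZC hz) x hd hzx
        refine ⟨insert_subset hxX h1, insert x W, ?_, insert_subset ?_ h3, insert x C, D,
          insert_nonempty x C, hD, disjoint_insert_left.2 ⟨hxD, hCD⟩, ?_, ?_⟩
        · rw [insert_union]
          exact insert_subset_insert x h2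
        · exact mem_union_left _ (mem_union_left _ hxX)
        · rw [insert_union, hW]
        · intro u hu d hd
          rcases mem_insert.1 hu with hu | hu
          · subst hu
            have h5 : d ∈ X ∪ Y ∪ Z := h3 (hW ▸ mem_union_right _ hd)
            have h6 : d ∉ Z := fun h7 => disjoint_left.1 hCD (hZC h7) hd
            have h7 : d ≠ u := fun h8 => hxD (h8 ▸ hd)
            rcases mem_union.1 h5 with h5 | h5
            · rcases mem_union.1 h5 with h5 | h5
              · exact nb_zero (A := X.erase u) (by omega) d (mem_erase.2 ⟨h7, h5⟩)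
              · exact nb_zero (A := Y) (by omega) d h5
            · exact absurd h5 h6
          · exact h u hu d hd
      · by_cases h2 : (X.erase x).Nonempty
        · refine ack_vertex rx_dn x ?_ ?_
          · -- deletion
            refine ack_congr (K := Rx (HG F) (X.erase x ∪ Y ∪ Z) (X.erase x) Z) (fun s => ?_)
              (ih (X.erase x) Y Z k (by omega) (disjoint_of_subset_left (erase_subset x X) hXY)
                (disjoint_of_subset_left (erase_subset x X) hXZ) hYZ hZ hn hY h2 hyz
                (by
                  have a5 := del_R hxX hYZ hyz h0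
                  omega))
            rw [rx_del, rx_drop (U := X ∪ Y ∪ Z) (T := {x}) hZ hn (by
              intro t ht
              rw [mem_singleton] at ht
              subst ht
              exact ⟨hxZ, z, hz, hzx⟩) (by
              intro t ht
              rw [mem_singleton] at ht
              subst ht
              exact notMem_erase t X)]
            have e : (X ∪ Y ∪ Z) \ {x} = X.erase x ∪ Y ∪ Z := by
              ext v
              simp only [mem_sdiff, mem_union, mem_singleton, mem_erase]
              constructor
              · tauto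
              · rintro ((h5 | h5) | h5)
                · tauto
                · exact ⟨Or.inl (Or.inr h5), fun h6 => hxY (h6 ▸ h5)⟩
                · exact ⟨Or.inr h5, fun h6 => hxZ (h6 ▸ h5)⟩
            rw [e]
          · -- link
            intro l hl
            have hn' : ¬ Disc (insert x Z) (HG F) := by
              intro hdz
              obtain ⟨C, D, hD, hCD, hW, hZC, h⟩ := disc_part hZ hn (subset_insert x Z) hdz
              obtain ⟨d, hdd⟩ := hD
              have h1 : d ∈ insert x Z := by
                rw [← hW]
                exact mem_union_right _ hdd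
              rcases mem_insert.1 h1 with h2 | h2
              · exact h z (hZC hz) d hdd (h2 ▸ hzx)
              · exact disjoint_left.1 hCD (hZC h2) hdd
            obtain ⟨T, hT⟩ : ∃ T, T = Y.filter fun a => s(x, a) ∈ (HG F) := ⟨_, rfl⟩
            have hTY : T ⊆ Y := hT ▸ filter_subset _ _
            have hTc : T.card = nb (HG F) x Y := by rw [hT]; rfl
            have e : (X ∪ Y ∪ Z) \ T = X.erase x ∪ (Y \ T) ∪ insert x Z := by
              ext v
              simp only [mem_sdiff, mem_union, mem_insert, mem_erase]
              constructor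
              · rintro ⟨(h5 | h5) | h5, h6⟩
                · by_cases h7 : v = x
                  · exact Or.inr (Or.inl h7)
                  · exact Or.inl (Or.inl ⟨h7, h5⟩)
                · exact Or.inl (Or.inr ⟨h5, h6⟩)
                · exact Or.inr (Or.inr h5)
              · rintro ((h5 | h5) | (h5 | h5))
                · exact ⟨Or.inl (Or.inl h5.2), fun h6 => disjoint_left.1 hXY h5.2 (hTY h6)⟩
                · exact ⟨Or.inl (Or.inr h5.1), h5.2⟩
                · subst h5
                  exact ⟨Or.inl (Or.inl hxX), fun h6 => hxY (hTY h6)⟩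
                · exact ⟨Or.inr h5, fun h6 => disjoint_left.1 hYZ (hTY h6) h5⟩
            have key : ∀ s, (Rx (HG F) (X ∪ Y ∪ Z) X Z (insert x s) ∧ x ∉ s) ↔
                Rx (HG F) (X.erase x ∪ (Y \ T) ∪ insert x Z) (X.erase x) (insert x Z) s := by
              intro s
              rw [rx_link hxX, rx_drop (U := X ∪ Y ∪ Z) (T := T) (insert_nonempty x Z) hn' (by
                intro t ht
                refine ⟨fun h5 => ?_, x, mem_insert_self x Z, ?_⟩
                · rcases mem_insert.1 h5 with h6 | h6
                  · exact hxY (h6 ▸ hTY ht)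
                  · exact disjoint_left.1 hYZ (hTY ht) h6
                · rw [hT] at ht
                  exact (mem_filter.1 ht).2) (by
                intro t ht h5
                exact disjoint_left.1 hXY (mem_of_mem_erase h5) (hTY ht)), e]
            have d1 : Disjoint (X.erase x) (insert x Z) :=
              disjoint_insert_right.2 ⟨notMem_erase x X,
                disjoint_of_subset_left (erase_subset x X) hXZ⟩
            by_cases hYT : (Y \ T).Nonempty
            · refine ack_congr (fun s => (key s).symm)
                (ih (X.erase x) (Y \ T) (insert x Z) l (by omega)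
                  (disjoint_of_subset_left (erase_subset x X)
                    (disjoint_of_subset_right sdiff_subset hXY)) d1 ?_ (insert_nonempty x Z) hn'
                  hYT h2 ?_ ?_)
              · exact disjoint_insert_right.2 ⟨fun h5 => hxY (mem_sdiff.1 h5).1,
                  disjoint_of_subset_left sdiff_subset hYZ⟩
              · intro y hy v hv
                rcases mem_insert.1 hv with h5 | h5
                · subst h5
                  intro h6
                  exact (mem_sdiff.1 hy).2 (hT ▸ mem_filter.2 ⟨(mem_sdiff.1 hy).1, h6⟩)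
                · exact hyz y (mem_sdiff.1 hy).1 v h5
              · have b3 : (Y \ T).card + T.card = Y.card := card_sdiff_add_card_eq_card hTY
                have a5 := link_R (F := F) hxX hXZ hYZ hyz hT
                omega
            · have h5 : Y \ T = ∅ := not_nonempty_iff_eq_empty.1 hYT
              refine ack_of_ac l (ac_congr (fun s => (key s).symm) ?_)
              refine ac_congr (K := Rr (HG F) (X.erase x ∪ insert x Z) (insert x Z)) (fun s => ?_)
                (ac_R _ _ _ le_rfl subset_union_right (insert_nonempty x Z) hn')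
              have h6 : (X.erase x ∪ insert x Z) \ insert x Z = X.erase x := by
                rw [union_sdiff_right]
                exact sdiff_eq_self_of_disjoint d1
              unfold Rr Rx
              rw [h6, h5, union_empty]
        · -- `X = {x}`
          have h3 : X.erase x = ∅ := not_nonempty_iff_eq_empty.1 h2
          have h4 : nb (HG F) x Y < Y.card := by
            have a5 := link_R (F := F) hxX hXZ hYZ hyz rfl
            have a6 : (sZ (HG F) (X.erase x) Z).card = 0 := by
              rw [h3]
              rfl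
            rw [h3, card_empty] at a4
            unfold nb
            omega
          obtain ⟨y, hy, hxy⟩ := nb_lt h4
          have h5 : X = {x} := by
            rw [← insert_erase hxX, h3]
            rfl
          refine ack_of_ac k (ac_congr (K := fun s => s ⊆ X) (fun s => ?_) (ac_simplex hX))
          refine ⟨fun h6 => ⟨h6, insert y (insert x Z), ?_, ?_, {y}, insert x Z,
            singleton_nonempty y, insert_nonempty x Z, ?_, rfl, ?_⟩, fun h6 => h6.1⟩
          · intro v hv
            rcases mem_union.1 hv with h7 | h7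
            · have h8 := h6 h7
              rw [h5, mem_singleton] at h8
              subst h8
              exact mem_insert_of_mem (mem_insert_self v Z)
            · exact mem_insert_of_mem (mem_insert_of_mem h7)
          · intro v hv
            rcases mem_insert.1 hv with h7 | h7
            · subst h7
              exact mem_union_left _ (mem_union_right _ hy)
            · rcases mem_insert.1 h7 with h8 | h8
              · subst h8
                exact mem_union_left _ (mem_union_left _ hxX)
              · exact mem_union_right _ h8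
          · refine disjoint_singleton_left.2 fun h7 => ?_
            rcases mem_insert.1 h7 with h8 | h8
            · exact hxY (h8 ▸ hy)
            · exact disjoint_left.1 hYZ hy h8
          · intro u hu v hv
            rw [mem_singleton] at hu
            subst hu
            rw [Sym2.eq_swap]
            rcases mem_insert.1 hv with h8 | h8
            · subst h8
              exact hxy
            · exact hyz u hy v h8
    · push Not at hx
      refine ack_of_ac k (ac_congr (K := fun s => s ⊆ X) (fun s => ?_) (ac_simplex hX))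
      refine ⟨fun h6 => ⟨h6, X ∪ Y ∪ Z, ?_, Subset.rfl, X ∪ Y, Z,
        hX.mono subset_union_left, hZ, disjoint_union_left.2 ⟨hXZ, hYZ⟩, rfl, ?_⟩, fun h6 => h6.1⟩
      · exact union_subset_union (h6.trans subset_union_left) Subset.rfl
      · intro u hu v hv
        rw [Sym2.eq_swap]
        rcases mem_union.1 hu with h7 | h7
        · exact hx u h7 v hv
        · exact hyz u h7 v hv

/-- Claim N. -/
theorem ack_N' {F : Finset (Finset V)} (n : ℕ) : ∀ (X Y : Finset V) (k : ℕ), X.card ≤ n →
    Disjoint X Y → Y.Nonempty → X.Nonempty →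
    k + 3 + mS F X Y ∅ ≤ 2 * X.card + Y.card →
    ACk k (Rx (HG F) (X ∪ Y) X ∅) := by
  induction n with
  | zero =>
    intro X Y k hc _ _ hX _
    exact absurd (card_pos.2 hX) (by omega)
  | succ n ih =>
    intro X Y k hc hXY hY hX hk
    by_cases hx : ∃ x ∈ X, ∃ y ∈ Y, s(x, y) ∈ (HG F)
    · obtain ⟨x, hxX, y, hy, hxy⟩ := hx
      have hxY : x ∉ Y := fun h => disjoint_left.1 hXY hxX h
      have a4 : (X.erase x).card + 1 = X.card := card_erase_add_one hxX
      by_cases h2 : (X.erase x).Nonempty
      · refine ack_vertex rx_dn x ?_ ?_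
        · -- deletion
          have e : X ∪ Y = X.erase x ∪ insert x Y := by
            ext v
            simp only [mem_union, mem_insert, mem_erase]
            constructor
            · rintro (h5 | h5)
              · by_cases h7 : v = x
                · exact Or.inr (Or.inl h7)
                · exact Or.inl ⟨h7, h5⟩
              · exact Or.inr (Or.inr h5)
            · rintro (h5 | h5 | h5)
              · exact Or.inl h5.2
              · subst h5
                exact Or.inl hxX
              · exact Or.inr h5
          have c1 := del_N hxX hxY hy hxy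
          have c3 : (insert x Y).card = Y.card + 1 := card_insert_of_notMem hxY
          refine ack_congr (K := Rx (HG F) (X.erase x ∪ insert x Y) (X.erase x) ∅) (fun s => ?_)
            (ih (X.erase x) (insert x Y) k (by omega) ?_ (insert_nonempty x Y) h2 (by omega))
          · rw [rx_del, e]
          · exact disjoint_insert_right.2 ⟨notMem_erase x X,
              disjoint_of_subset_left (erase_subset x X) hXY⟩
        · -- link
          intro l hl
          have hn' : ¬ Disc ({x} : Finset V) (HG F) := not_disc_singleton x
          obtain ⟨T, hT⟩ : ∃ T, T = Y.filter fun a => s(x, a) ∈ (HG F) := ⟨_, rfl⟩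
          have hTY : T ⊆ Y := hT ▸ filter_subset _ _
          have hTc : T.card = nb (HG F) x Y := by rw [hT]; rfl
          have e : (X ∪ Y) \ T = X.erase x ∪ (Y \ T) ∪ {x} := by
            ext v
            simp only [mem_sdiff, mem_union, mem_singleton, mem_erase]
            constructor
            · rintro ⟨h5 | h5, h6⟩
              · by_cases h7 : v = x
                · exact Or.inr h7
                · exact Or.inl (Or.inl ⟨h7, h5⟩)
              · exact Or.inl (Or.inr ⟨h5, h6⟩)
            · rintro ((h5 | h5) | h5)
              · exact ⟨Or.inl h5.2, fun h6 => disjoint_left.1 hXY h5.2 (hTY h6)⟩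
              · exact ⟨Or.inr h5.1, h5.2⟩
              · subst h5
                exact ⟨Or.inl hxX, fun h6 => hxY (hTY h6)⟩
          have key : ∀ s, (Rx (HG F) (X ∪ Y) X ∅ (insert x s) ∧ x ∉ s) ↔
              Rx (HG F) (X.erase x ∪ (Y \ T) ∪ {x}) (X.erase x) {x} s := by
            intro s
            rw [rx_link hxX, insert_empty_eq, rx_drop (U := X ∪ Y) (T := T)
              (singleton_nonempty x) hn' (by
              intro t ht
              refine ⟨fun h5 => ?_, x, mem_singleton_self x, ?_⟩
              · rw [mem_singleton] at h5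
                exact hxY (h5 ▸ hTY ht)
              · rw [hT] at ht
                exact (mem_filter.1 ht).2) (by
              intro t ht h5
              exact disjoint_left.1 hXY (mem_of_mem_erase h5) (hTY ht)), e]
          have d1 : Disjoint (X.erase x) ({x} : Finset V) :=
            disjoint_singleton_right.2 (notMem_erase x X)
          by_cases hYT : (Y \ T).Nonempty
          · refine ack_congr (fun s => (key s).symm)
              (ack_R _ (X.erase x) (Y \ T) {x} l le_rfl
                (disjoint_of_subset_left (erase_subset x X)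
                  (disjoint_of_subset_right sdiff_subset hXY)) d1 ?_ (singleton_nonempty x) hn'
                hYT h2 ?_ ?_)
            · exact disjoint_singleton_right.2 fun h5 => hxY (mem_sdiff.1 h5).1
            · intro y' hy' v hv
              rw [mem_singleton] at hv
              subst hv
              intro h6
              exact (mem_sdiff.1 hy').2 (hT ▸ mem_filter.2 ⟨(mem_sdiff.1 hy').1, h6⟩)
            · have b3 : (Y \ T).card + T.card = Y.card := card_sdiff_add_card_eq_card hTY
              have a5 := link_R (F := F) (Y := Y) (Z := ∅) hxX (disjoint_empty_right _)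
                (disjoint_empty_right _) (fun _ _ z hz => absurd hz (notMem_empty z)) hT
              have a6 : (sZ (HG F) (X.erase x) ∅).card = 0 := by
                simp [sZ]
              rw [insert_empty_eq] at a5
              omega
          · have h5 : Y \ T = ∅ := not_nonempty_iff_eq_empty.1 hYT
            refine ack_of_ac l (ac_congr (fun s => (key s).symm) ?_)
            refine ac_congr (K := Rr (HG F) (X.erase x ∪ {x}) {x}) (fun s => ?_)
              (ac_R _ _ _ le_rfl subset_union_right (singleton_nonempty x) hn')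
            have h6 : (X.erase x ∪ {x}) \ {x} = X.erase x := by
              rw [union_sdiff_right]
              exact sdiff_eq_self_of_disjoint d1
            unfold Rr Rx
            rw [h6, h5, union_empty]
      · -- `X = {x}`
        have h3 : X.erase x = ∅ := not_nonempty_iff_eq_empty.1 h2
        have h4 : nb (HG F) x Y < Y.card := by
          have a5 := link_R (F := F) (Y := Y) (Z := ∅) hxX (disjoint_empty_right _)
            (disjoint_empty_right _) (fun _ _ z hz => absurd hz (notMem_empty z)) rfl
          have a6 : (sZ (HG F) (X.erase x) ∅).card = 0 := by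
            simp [sZ]
          rw [h3, card_empty] at a4
          unfold nb
          omega
        obtain ⟨y', hy', hxy'⟩ := nb_lt h4
        have h5 : X = {x} := by
          rw [← insert_erase hxX, h3]
          rfl
        refine ack_of_ac k (ac_congr (K := fun s => s ⊆ X) (fun s => ?_) (ac_simplex hX))
        refine ⟨fun h6 => ⟨h6, {x} ∪ {y'}, ?_, ?_, {x}, {y'},
          singleton_nonempty x, singleton_nonempty y', ?_, rfl, ?_⟩, fun h6 => h6.1⟩
        · rw [union_empty, ← h5]
          exact h6.trans subset_union_left
        · exact union_subset_union (singleton_subset_iff.2 hxX) (singleton_subset_iff.2 hy')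
        · exact disjoint_singleton.2 fun h7 => hxY (h7 ▸ hy')
        · intro u hu v hv
          rw [mem_singleton] at hu hv
          subst hu
          subst hv
          exact hxy'
    · push Not at hx
      refine ack_of_ac k (ac_congr (K := fun s => s ⊆ X) (fun s => ?_) (ac_simplex hX))
      refine ⟨fun h6 => ⟨h6, X ∪ Y, ?_, Subset.rfl, X, Y, hX, hY, hXY, rfl, hx⟩, fun h6 => h6.1⟩
      rw [union_empty]
      exact h6.trans subset_union_left

/-- THEOREM D', graph part, for a union of cliques: cycles on sets with at most `k` elements bound in the complex of the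
sets which lie in a disconnected set, if `k + ∑ (2 |A| - 3) + 4 ≤ 2 |V|`. -/
theorem ack_hyp (F : Finset (Finset V)) (h2 : 2 ≤ Fintype.card V) (hF : ∀ X ∈ F, 2 ≤ X.card) {k : ℕ}
    (hk : k + cost F + 4 ≤ 2 * Fintype.card V) :
    ACk k fun M : Finset V => ∃ W, M ⊆ W ∧ Disc W (HG F) := by
  have hne : 0 < Fintype.card V := by omega
  obtain ⟨x⟩ := Fintype.card_pos_iff.1 hne
  have hc : (univ.erase x : Finset V).card + 1 = Fintype.card V := by
    rw [card_erase_add_one (mem_univ x), card_univ]
  have hX : (univ.erase x : Finset V).Nonempty := card_pos.1 (by omega)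
  have hG := mS_univ hF x
  refine ack_vertex (fun s t hst ⟨W, h3, h4⟩ => ⟨W, hst.trans h3, h4⟩) x ?_ ?_
  · refine ack_congr (K := Rx (HG F) (univ.erase x ∪ {x}) (univ.erase x) ∅) (fun s => ?_)
      (ack_N' _ (univ.erase x) {x} k le_rfl (disjoint_singleton_right.2 (notMem_erase x univ))
        (singleton_nonempty x) hX ?_)
    · unfold Rx
      rw [union_empty]
      constructor
      · rintro ⟨h3, W, h4, -, h5⟩
        exact ⟨⟨W, h4, h5⟩, fun h6 => notMem_erase x univ (h3 h6)⟩
      · rintro ⟨⟨W, h4, h5⟩, h6⟩
        refine ⟨subset_erase.2 ⟨subset_univ s, h6⟩, W, h4, fun v _ => ?_, h5⟩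
        by_cases h7 : v = x
        · exact mem_union_right _ (mem_singleton.2 h7)
        · exact mem_union_left _ (mem_erase.2 ⟨h7, mem_univ v⟩)
    · rw [card_singleton]
      omega
  · intro l _
    refine ack_of_ac l (ac_congr (K := Rr (HG F) univ {x}) (fun s => ?_)
      (ac_R _ univ {x} le_rfl (subset_univ _) (singleton_nonempty x) (not_disc_singleton x)))
    constructor
    · rintro ⟨h1, W, h2, -, h4⟩
      refine ⟨⟨W, ?_, h4⟩, fun hs => ?_⟩
      · intro v hv
        apply h2
        simp only [mem_union, mem_insert, mem_singleton] at hv ⊢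
        tauto
      · exact (mem_sdiff.1 (h1 hs)).2 (mem_singleton_self x)
    · rintro ⟨⟨W, h1, h2⟩, hzs⟩
      refine ⟨fun v hv => mem_sdiff.2 ⟨mem_univ v, fun h3 => ?_⟩, W, ?_, subset_univ _, h2⟩
      · rw [mem_singleton] at h3
        exact hzs (h3 ▸ hv)
      · intro v hv
        apply h1
        simp only [mem_union, mem_insert, mem_singleton] at hv ⊢
        tauto

end H33LH
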